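import Pool.Agent.H.MP_8dad47_al.C

set_option autoImplicit false

namespace Pool.Agent.HShift

open Finset MvPolynomial

variable {n : ℕ} {K : Type} [Field K]

/-- Elements of degree `d` of the `i`-th term of the Koszul complex of the polynomial ring. -/
def IsCh (i d : ℕ) (c : Finset (Fin n) → MvPolynomial (Fin n) K) : Prop :=
  ∀ F, ∀ m ∈ (c F).support, F.card = i ∧ m.degree + i = d

/-- The Koszul homology `H_i(x; S / I)`, that is `Tor_i(S / I, K)`, is nonzero in degree `d`. -/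
def BettiQ (I : Ideal (MvPolynomial (Fin n) K)) (i d : ℕ) : Prop :=
  ∃ c, IsCh i d c ∧ (∀ G, kd c G ∈ I) ∧ ¬ ∃ w, IsCh (i + 1) d w ∧ ∀ F, kd w F - c F ∈ I

lemma kd_eq (c : Finset (Fin n) → MvPolynomial (Fin n) K) (G : Finset (Fin n)) :
    kd c G = ∑ j ∈ Gᶜ, sg K j G • (X j * c (insert j G)) := by
  simp only [kd, sg, smul_eq_C_mul, map_pow, map_neg, map_one, mul_assoc]

lemma kd_kd (c : Finset (Fin n) → MvPolynomial (Fin n) K) (G : Finset (Fin n)) :
    kd (kd c) G = 0 := by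
  have h : kd (kd c) G = ∑ p ∈ Gᶜ ×ˢ Gᶜ with p.1 ≠ p.2, (sg K p.1 G * sg K p.2 (insert p.1 G)) •
      (X p.1 * X p.2 * c (insert p.2 (insert p.1 G))) := by
    rw [sum_filter, sum_product, kd_eq]
    refine sum_congr rfl fun j _ => ?_
    rw [kd_eq, ← sum_filter, compl_insert, filter_ne, mul_sum, smul_sum]
    exact sum_congr rfl fun l _ => by rw [mul_smul_comm, smul_smul, mul_assoc]
  rw [h]
  refine sum_involution (fun p _ => p.swap) (fun p hp => ?_) (fun p hp _ h => ?_)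
    (fun p hp => ?_) fun _ _ => rfl
  · simp only [mem_filter, mem_product, mem_compl] at hp
    have h1 := sg_swap (K := K) hp.2 hp.1.1 hp.1.2
    have h2 : sg K p.1 G * sg K p.2 (insert p.1 G) + sg K p.2 G * sg K p.1 (insert p.2 G) = 0 := by
      linear_combination sg K p.1 G * sg K p.1 (insert p.2 G) * h1 -
        sg K p.1 G * sg K p.2 (insert p.1 G) * sg_sq (K := K) p.1 (insert p.2 G) -
        sg K p.2 G * sg K p.1 (insert p.2 G) * sg_sq (K := K) p.1 G
    rw [Prod.fst_swap, Prod.snd_swap, insert_comm, mul_comm (X p.2), ← add_smul, h2, zero_smul]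
  · exact (mem_filter.1 hp).2 (congrArg Prod.snd h)
  · simp only [mem_filter, mem_product] at hp ⊢
    exact ⟨hp.1.symm, hp.2.symm⟩

lemma kd_sub (c w : Finset (Fin n) → MvPolynomial (Fin n) K) (G : Finset (Fin n)) :
    kd (c - w) G = kd c G - kd w G := by
  simp [kd, mul_sub]

lemma isCh_iff {i e : ℕ} {c : Finset (Fin n) → MvPolynomial (Fin n) K} :
    IsCh i (e + i) c ↔ ∀ F, (c F).IsHomogeneous e ∧ (#F ≠ i → c F = 0) := by
  refine forall_congr' fun F => ⟨fun h => ⟨fun m hm => ?_, fun h1 => ?_⟩, fun h m hm => ?_⟩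
  · have := (h m (mem_support_iff.2 hm)).2
    rw [Finsupp.degree_eq_weight_one] at this
    exact add_right_cancel this
  · exact support_eq_empty.1 (eq_empty_of_forall_notMem fun m hm => h1 (h m hm).1)
  · refine ⟨by_contra fun h1 => by simp [h.2 h1] at hm, ?_⟩
    rw [Finsupp.degree_eq_weight_one]
    exact congrArg (· + i) (h.1 (mem_support_iff.1 hm))

lemma IsCh.kd {i e : ℕ} {c : Finset (Fin n) → MvPolynomial (Fin n) K}
    (h : IsCh (i + 1) (e + (i + 1)) c) : IsCh i (e + 1 + i) (kd c) := by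
  rw [isCh_iff] at h ⊢
  refine fun G => ⟨?_, fun h1 => sum_eq_zero fun j hj => ?_⟩
  · rw [kd_eq]
    exact (homogeneousSubmodule _ _ _).sum_mem fun j _ => Submodule.smul_mem _ _
      (add_comm 1 e ▸ (isHomogeneous_X K j).mul (h _).1)
  · rw [(h _).2 (by rw [card_insert_of_notMem (mem_compl.1 hj)]; omega), mul_zero]

def ez (F : Finset (Fin n)) (j : Fin n) : ℤ := if j ∈ F then 1 else 0

lemma sum_ez (F : Finset (Fin n)) : ∑ j, ez F j = #F := by simp [ez]

lemma ez_insert {l : Fin n} {G : Finset (Fin n)} (h : l ∉ G) :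
    ez (insert l G) = ez G + Pi.single l 1 := by
  ext j
  by_cases h1 : j = l <;> simp [ez, h1, h]

lemma conical [NeZero n] (L : Ideal (MvPolynomial (Fin n) K)) (Ω : (Fin n → ℤ) → Prop)
    (ev : (Fin n → ℤ) → MvPolynomial (Fin n) K →ₗ[K] K) (s : ℤ) (i e : ℕ)
    (h0 : ∀ b f, ¬ Ω b → ev b f = 0)
    (hX : ∀ b l, ∀ f ∈ L, Ω b → ev b (X l * f) = ev (b - Pi.single l 1) f)
    (hd : ∀ b f, f.IsHomogeneous (e + 1) → ev b f ≠ 0 → ∑ j, b j + s = e + 1)
    (hf : {b | Ω b ∧ ∑ j, b j + s = e}.Finite)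
    (hu : ∀ b, Ω b → ∑ j, b j + s = e → ∃ u ∈ L, u.IsHomogeneous e ∧
      ∀ b', ev b' u = if b = b' then 1 else 0)
    (hc : ∀ a F, #F = i → Ω (a - ez F) → ∑ j, a j + s = e + 1 + i →
      ∃ j, ∀ F, j ∉ F → (Ω (a - ez F) ↔ Ω (a - ez (insert j F))))
    (c : Finset (Fin n) → MvPolynomial (Fin n) K) (h1 : IsCh i (e + 1 + i) c) (h2 : ∀ F, c F ∈ L)
    (h3 : ∀ b G, ev b (kd c G) = 0) :
    ∃ w, IsCh (i + 1) (e + (i + 1)) w ∧ (∀ F, w F ∈ L) ∧ ∀ b F, ev b (kd w F - c F) = 0 := by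
  classical
  have e1 : ∀ w : Finset (Fin n) → MvPolynomial (Fin n) K, (∀ F, w F ∈ L) → ∀ a G, Ω (a - ez G) →
      ev (a - ez G) (kd w G) = bd (fun F => ev (a - ez F) (w F)) G := fun w hw a G h => by
    rw [kd_eq, map_sum]
    exact sum_congr rfl fun j hj => by
      rw [map_smul, hX _ _ _ (hw _) h, sub_sub, ← ez_insert (mem_compl.1 hj), smul_eq_mul]
  rw [isCh_iff] at h1
  let la : (Fin n → ℤ) → Finset (Fin n) → K := fun a F => ev (a - ez F) (c F)
  have e2 : ∀ a F, la a F ≠ 0 → #F = i ∧ Ω (a - ez F) ∧ ∑ j, a j + s = e + 1 + i := fun a F h => by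
    have h4 : #F = i := by_contra fun h4 => h (by simp only [la, (h1 F).2 h4, map_zero])
    have h5 := hd _ _ (h1 F).1 h
    simp only [Pi.sub_apply, sum_sub_distrib, sum_ez, h4] at h5
    exact ⟨h4, by_contra fun h6 => h (h0 _ _ h6), by omega⟩
  have e3 : ∀ a, ∃ j, ∀ F0, la a F0 ≠ 0 →
      ∀ F, j ∉ F → (Ω (a - ez F) ↔ Ω (a - ez (insert j F))) := fun a => by
    by_cases h : ∃ F0, la a F0 ≠ 0
    · obtain ⟨F, h⟩ := h
      obtain ⟨j, hj⟩ := hc a F (e2 a F h).1 (e2 a F h).2.1 (e2 a F h).2.2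
      exact ⟨j, fun _ _ => hj⟩
    · exact ⟨0, fun F h' => absurd ⟨F, h'⟩ h⟩
  choose j hj using e3
  choose! U hU using hu
  have e4 : ∀ b F, cone (j (b + ez F)) (la (b + ez F)) F ≠ 0 →
      #F = i + 1 ∧ Ω b ∧ ∑ j, b j + s = e := fun b F h => by
    have h4 : j (b + ez F) ∈ F := by_contra fun h4 => h (if_neg h4)
    rw [cone, if_pos h4] at h
    have h5 := right_ne_zero_of_mul h
    obtain ⟨h6, h7, h8⟩ := e2 _ _ h5
    rw [hj _ _ h5 _ (notMem_erase _ _), insert_erase h4, add_sub_cancel_right] at h7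
    have h9 := card_erase_add_one h4
    simp only [Pi.add_apply, sum_add_distrib, sum_ez] at h8
    exact ⟨by omega, h7, by omega⟩
  let w : Finset (Fin n) → MvPolynomial (Fin n) K := fun F =>
    ∑ b ∈ hf.toFinset, cone (j (b + ez F)) (la (b + ez F)) F • U b
  have e5 : ∀ b ∈ hf.toFinset, Ω b ∧ ∑ j, b j + s = e := fun b hb => hf.mem_toFinset.1 hb
  have e6 : ∀ F, w F ∈ L := fun F => L.sum_mem fun b hb =>
    L.smul_of_tower_mem _ (hU b (e5 b hb).1 (e5 b hb).2).1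
  have e7 : ∀ a F, ev (a - ez F) (w F) = cone (j a) (la a) F := fun a F => by
    rw [map_sum, sum_congr rfl fun b hb => by
      rw [map_smul, (hU b (e5 b hb).1 (e5 b hb).2).2.2, smul_eq_mul, mul_ite, mul_one, mul_zero],
      sum_ite_eq']
    have := e4 (a - ez F) F
    rw [sub_add_cancel] at this ⊢
    exact ite_eq_left_iff.2 fun h => (not_not.1 fun h' => h (hf.mem_toFinset.2 (this h').2)).symm
  refine ⟨w, isCh_iff.2 fun F => ⟨(homogeneousSubmodule _ _ _).sum_mem fun b hb =>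
    Submodule.smul_mem _ _ (hU b (e5 b hb).1 (e5 b hb).2).2.1, fun h => sum_eq_zero fun b _ => by
      rw [not_not.1 fun h' => h (e4 b F h').1, zero_smul]⟩, e6, fun b F => ?_⟩
  by_cases h : Ω b
  swap
  · exact h0 _ _ h
  obtain ⟨a, rfl⟩ : ∃ a, b = a - ez F := ⟨b + ez F, by simp⟩
  rw [map_sub, e1 w e6 a F h, funext (e7 a), bd_cone, Pi.sub_apply, sub_sub_cancel_left,
    neg_eq_zero, cone]
  refine ite_eq_right_iff.2 fun h4 => mul_eq_zero_of_right _ (by_contra fun h5 => ?_)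
  obtain ⟨l, -, h6⟩ := exists_ne_zero_of_sum_ne_zero h5
  refine h5 ((e1 c h2 a _ ?_).symm.trans (h3 _ _))
  rwa [hj a _ (right_ne_zero_of_mul h6) _ (notMem_erase _ _), insert_erase h4]

end Pool.Agent.HShift
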