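import Pool.Agent.H.MP_78a38c_al.B

set_option autoImplicit false

namespace Pool.Agent.WConv

open Finset MvPolynomial Pool.Agent.HShift

abbrev T : Type := MvPolynomial (Fin 6) (ZMod 2)

def cm (m : Fin 6 →₀ ℕ) : ℕ := cd (m 0, m 1, m 2)

noncomputable def phi (m : Fin 6 →₀ ℕ) : ZMod 2 :=
  if m 4 + m 5 = 1 ∧ m.degree = 15 ∧ (NN (m 4 = 1)).testBit (cm m) then 1 else 0

noncomputable def Phi : T →ₗ[ZMod 2] ZMod 2 := (basisMonomials _ _).constr (ZMod 2) phi

lemma Phi_mon (m : Fin 6 →₀ ℕ) : Phi (monomial m 1) = phi m :=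
  (basisMonomials _ _).constr_basis (ZMod 2) phi m

lemma Phi_mul (a : Fin 6 →₀ ℕ) (f : T) :
    Phi (monomial a 1 * f) = ∑ m ∈ f.support, coeff m f * phi (a + m) := by
  conv_lhs => rw [f.as_sum, mul_sum, map_sum]
  refine sum_congr rfl fun m _ => ?_
  rw [monomial_mul, ← Phi_mon, ← smul_eq_mul (coeff m f), ← map_smul, smul_monomial, one_mul,
    smul_eq_mul, mul_one]

lemma Phi_ne {a : Fin 6 →₀ ℕ} {f : T} (h : Phi (monomial a 1 * f) ≠ 0) :
    ∃ m ∈ f.support, a 4 + a 5 + (m 4 + m 5) = 1 ∧ a.degree + m.degree = 15 := by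
  rw [Phi_mul] at h
  obtain ⟨m, hm, h⟩ := exists_ne_zero_of_sum_ne_zero h
  have := (ite_ne_right_iff.1 (right_ne_zero_of_mul h)).1
  simp only [Finsupp.add_apply, map_add] at this
  exact ⟨m, hm, by omega, this.2.1⟩

lemma hdeg {f : T} {e : ℕ} (h : f.IsHomogeneous e) {m : Fin 6 →₀ ℕ} (hm : m ∈ f.support) :
    m.degree = e := by
  rw [Finsupp.degree_eq_weight_one]
  exact h (mem_support_iff.1 hm)

noncomputable def LL : Ideal T := Ideal.span (X '' {4, 5})

lemma mem_LL {f : T} : f ∈ LL ↔ ∀ m ∈ f.support, 1 ≤ m 4 + m 5 := by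
  simp only [LL, mem_ideal_span_X_image, Set.mem_insert_iff, Set.mem_singleton_iff,
    exists_eq_or_imp, exists_eq_left]
  exact forall₂_congr fun _ _ => by omega

noncomputable def I0 : Ideal T where
  carrier := {f | f ∈ LL ∧ ∀ g, Phi (g * f) = 0}
  add_mem' h h' := ⟨add_mem h.1 h'.1, fun g => by rw [mul_add, map_add, h.2, h'.2, add_zero]⟩
  zero_mem' := ⟨zero_mem _, by simp⟩
  smul_mem' c f h := ⟨LL.mul_mem_left _ h.1, fun g => by rw [smul_eq_mul, ← mul_assoc, h.2]⟩

lemma mem_I0 {f : T} : f ∈ I0 ↔ f ∈ LL ∧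
    ∀ a : Fin 6 →₀ ℕ, a 4 = 0 → a 5 = 0 → Phi (monomial a 1 * f) = 0 := by
  refine and_congr_right fun h => ⟨fun h' a _ _ => h' _, fun h' g => ?_⟩
  induction g using MvPolynomial.induction_on' with
  | monomial a c =>
    rw [show monomial a c = c • monomial a (1 : ZMod 2) by rw [smul_monomial, smul_eq_mul, mul_one],
      smul_mul_assoc, map_smul]
    refine smul_eq_zero_of_right _ (by_contra fun h1 => ?_)
    obtain ⟨m, hm, h2, -⟩ := Phi_ne h1
    have := mem_LL.1 h m hm
    exact h1 (h' a (by omega) (by omega))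
  | add p q hp hq => rw [add_mul, map_add, hp, hq, add_zero]

noncomputable def ex (r : Bool × ℕ × ℕ × ℕ) : Fin 6 →₀ ℕ := Finsupp.equivFunOnFinite.symm
  ![r.2.1, r.2.2.1, r.2.2.2, 6 - (r.2.1 + r.2.2.1 + r.2.2.2), if r.1 then 1 else 0,
    if r.1 then 0 else 1]

lemma base (L : List (Bool × ℕ × ℕ × ℕ)) (h : ∀ r ∈ L, r.2.1 + r.2.2.1 + r.2.2.2 ≤ 6) :
    ∃ u ∈ LL, u.IsHomogeneous 7 ∧ ∀ a : Fin 6 →₀ ℕ, a 4 = 0 → a 5 = 0 → a.degree = 8 →
      Phi (monomial a 1 * u) = if (fold L).testBit (cm a) then 1 else 0 := by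
  induction L with
  | nil => exact ⟨0, zero_mem _, isHomogeneous_zero _ _ _, by simp [fold]⟩
  | cons r L ih =>
    obtain ⟨u, h1, h2, h3⟩ := ih fun r hr => h r (List.mem_cons_of_mem _ hr)
    have h4 := h r List.mem_cons_self
    obtain ⟨l, a, b, c⟩ := r
    have h5 : (ex (l, a, b, c)).degree = 7 := by
      cases l <;> simp [Finsupp.degree_eq_sum, ex, Fin.sum_univ_six] at h4 ⊢ <;> omega
    refine ⟨monomial (ex (l, a, b, c)) 1 + u, add_mem (mem_LL.2 fun m hm => ?_) h1,
      (isHomogeneous_monomial _ h5).add h2, fun m h6 h7 h8 => ?_⟩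
    · rw [mem_singleton.1 (support_monomial_subset hm)]
      cases l <;> simp [ex]
    · have h9 : cm (m + ex (l, a, b, c)) = cd (a, b, c) + cm m := by
        simp [cm, cd, ex]
        ring
      rw [mul_add, map_add, h3 m h6 h7 h8, monomial_mul, one_mul, Phi_mon, phi, map_add, h5, h8, h9,
        show fold ((l, a, b, c) :: L) = (NN l >>> cd (a, b, c)) ^^^ fold L from rfl,
        Nat.testBit_xor, Nat.testBit_shiftRight]
      generalize (fold L).testBit (cm m) = v
      generalize cd (a, b, c) + cm m = t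
      cases l <;> simp only [ex, Finsupp.add_apply, h6, h7, Finsupp.coe_equivFunOnFinite_symm,
        Matrix.cons_val] <;> simp <;> generalize (NN _).testBit t = w <;> revert v w <;> decide

lemma dual (k : ℕ) : ∀ m : Fin 6 →₀ ℕ, m 4 = 0 → m 5 = 0 → m.degree + k = 8 →
    ∃ u ∈ LL, u.IsHomogeneous (7 + k) ∧ ∀ a : Fin 6 →₀ ℕ, a 4 = 0 → a 5 = 0 →
      Phi (monomial a 1 * u) = if m = a then 1 else 0 := by
  induction k with
  | zero =>
    intro m h1 h2 h3
    have e : ∀ a : Fin 6 →₀ ℕ, a.degree = a 0 + a 1 + a 2 + a 3 + a 4 + a 5 := fun a => by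
      rw [Finsupp.degree_eq_sum, Fin.sum_univ_six]
    have h4 := e m
    obtain ⟨-, h5, h6⟩ := chk (m 0) (by omega) (m 1) (by omega) (m 2) (by omega) (by omega)
    obtain ⟨u, h7, h8, h9⟩ := base _ fun r hr => of_decide_eq_true (List.all_eq_true.1 h6 r hr)
    refine ⟨u, h7, h8, fun a h10 h11 => ?_⟩
    have h12 := e a
    by_cases h : a.degree = 8
    · have h13 := congrArg (·.testBit (cm a)) h5
      simp only [Nat.testBit_and, Nat.testBit_two_pow, cm,
        (chk (a 0) (by omega) (a 1) (by omega) (a 2) (by omega) (by omega)).1, Bool.and_true] at h13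
      rw [h9 a h10 h11 h, cm, h13]
      refine if_congr ⟨fun h14 => Finsupp.ext fun j => ?_, fun h14 => by simp [h14]⟩ rfl rfl
      have h15 := of_decide_eq_true h14
      simp only [cd] at h15
      clear h5 h13 h14 h9
      have : m 2 = a 2 := by omega
      have : m 1 = a 1 := by omega
      fin_cases j <;> simp <;> omega
    · rw [if_neg fun h' => h (by rw [← h']; exact h3)]
      by_contra h13
      obtain ⟨b, hb, -, h14⟩ := Phi_ne h13
      have := hdeg h8 hb
      omega
  | succ k ih =>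
    intro m h1 h2 h3
    obtain ⟨u, h4, h5, h6⟩ := ih (m + Finsupp.single 0 1) (by simpa) (by simpa)
      (by rw [map_add, Finsupp.degree_single]; omega)
    refine ⟨u * X 0, LL.mul_mem_right _ h4, h5.mul (isHomogeneous_X _ _), fun a h7 h8 => ?_⟩
    rw [mul_comm u, ← mul_assoc, X, monomial_mul, mul_one, h6 _ (by simpa) (by simpa)]
    simp

def Om (b : Fin 6 → ℤ) : Prop := (∀ j, 0 ≤ b j) ∧ b 4 = 0 ∧ b 5 = 0

noncomputable def tn (b : Fin 6 → ℤ) : Fin 6 →₀ ℕ :=
  Finsupp.equivFunOnFinite.symm fun j => (b j).toNat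

lemma tn_apply (b : Fin 6 → ℤ) (j : Fin 6) : tn b j = (b j).toNat := rfl

lemma deg_tn {b : Fin 6 → ℤ} (h : Om b) : ((tn b).degree : ℤ) = ∑ j, b j := by
  simp [Finsupp.degree_eq_sum, tn_apply, h.1]

lemma tn_inj {b b' : Fin 6 → ℤ} (h : Om b) (h' : Om b') : tn b = tn b' ↔ b = b' :=
  ⟨fun e => funext fun j => by
    have := DFunLike.congr_fun e j
    have := h.1 j
    have := h'.1 j
    simp only [tn_apply] at *
    omega, congrArg _⟩

lemma tn_add {b : Fin 6 → ℤ} (h : Om b) (l : Fin 6) :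
    tn (b + Pi.single l 1) = Finsupp.single l 1 + tn b := by
  ext j
  have := h.1 j
  by_cases h1 : j = l <;> simp [tn_apply, h1] at this ⊢
  omega

lemma Om_fin (d : ℤ) : {b | Om b ∧ ∑ j, b j = d}.Finite :=
  (Set.finite_Icc (0 : Fin 6 → ℤ) fun _ => d).subset fun _ h =>
    ⟨h.1.1, fun j => h.2 ▸ single_le_sum (fun i _ => h.1.1 i) (mem_univ j)⟩

lemma Om_cone {b : Fin 6 → ℤ} {j : Fin 6} (h : j.1 < 4) (t : ℤ) (h1 : 0 ≤ b j) (h2 : 0 ≤ b j + t) :
    Om b ↔ Om (b + Pi.single j t) := by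
  have h4 : (4 : Fin 6) ≠ j := by rintro rfl; simp at h
  have h5 : (5 : Fin 6) ≠ j := by rintro rfl; simp at h
  simp only [Om, Pi.add_apply, Pi.single_eq_of_ne h4, Pi.single_eq_of_ne h5, add_zero]
  exact and_congr_left' (forall_congr' fun i => by by_cases h : i = j <;> simp [*])

open Classical in
noncomputable def evS (b : Fin 6 → ℤ) : T →ₗ[ZMod 2] ZMod 2 :=
  if Om b then lcoeff _ (tn b) else 0

open Classical in
noncomputable def evE (b : Fin 6 → ℤ) : T →ₗ[ZMod 2] ZMod 2 :=
  if Om (-b) then Phi ∘ₗ LinearMap.mulLeft _ (monomial (tn (-b)) 1) else 0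

lemma stepS {e : ℕ} (he : 6 ≤ e) (c : Finset (Fin 6) → T) (h1 : IsCh 3 (e + 1 + 3) c)
    (h3 : ∀ G, kd c G ∈ LL) : ∃ w, IsCh 4 (e + 4) w ∧ ∀ F, kd w F - c F ∈ LL := by
  classical
  have e0 : ∀ f, f ∈ LL ↔ ∀ b, evS b f = 0 := fun f => by
    rw [mem_LL]
    refine ⟨fun h b => ?_, fun h m hm => not_lt.1 fun h1 => mem_support_iff.1 hm ?_⟩
    · rw [evS]
      split_ifs with h1
      · by_contra h2
        simpa [tn_apply, h1.2] using h _ (mem_support_iff.2 h2)
      · rfl
    · have := h fun j => m j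
      rwa [evS, if_pos ⟨fun _ => by positivity, by simp; omega, by simp; omega⟩,
        show tn (fun j => m j) = m from Finsupp.ext fun _ => by simp [tn_apply]] at this
  obtain ⟨w, h4, -, h5⟩ := conical ⊤ Om evS 0 3 e (fun b f h => by simp [evS, h])
    (fun b l f _ h => by
      by_cases h1 : Om (b - Pi.single l 1)
      · have := tn_add h1 l
        rw [sub_add_cancel] at this
        simp [evS, h, h1, this]
      · simp only [evS, if_pos h, if_neg h1, lcoeff_apply, LinearMap.zero_apply, coeff_X_mul']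
        refine if_neg fun h2 => h1 ?_
        rw [Finsupp.mem_support_iff, tn_apply] at h2
        have h3 : l.1 < 4 := by
          have := h.2
          fin_cases l <;> simp_all
        rw [sub_eq_add_neg, ← Pi.single_neg]
        exact (Om_cone h3 _ (h.1 l) (by omega)).1 h)
    (fun b f hf h => by
      have h1 : Om b := by_contra fun h1 => h (by simp [evS, h1])
      rw [evS, if_pos h1] at h
      rw [← deg_tn h1, hdeg hf (mem_support_iff.2 h)]
      simp)
    (by simpa using Om_fin e)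
    (fun b h h' => ⟨monomial (tn b) 1, trivial, isHomogeneous_monomial _ (by
      have := deg_tn h
      omega), fun b' => by
        by_cases h1 : Om b'
        · simp [evS, h1, tn_inj h h1]
        · rw [evS, if_neg h1, if_neg fun h2 : b = b' => h1 (h2 ▸ h)]
          rfl⟩)
    (fun a F _ h h' => by
      obtain ⟨j, h1, h2⟩ : ∃ j : Fin 6, j.1 < 4 ∧ 1 ≤ a j := by
        by_contra h1
        push Not at h1
        have := h1 0 (by decide)
        have := h1 1 (by decide)
        have := h1 2 (by decide)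
        have := h1 3 (by decide)
        have := h.2
        simp only [Fin.sum_univ_six, Pi.sub_apply, ez] at *
        omega
      refine ⟨j, fun G hG => ?_⟩
      rw [ez_insert hG, ← sub_sub, sub_eq_add_neg (a - _), ← Pi.single_neg]
      exact Om_cone h1 _ (by simp [ez, hG]; omega) (by simp [ez, hG]; omega))
    c h1 (fun _ => trivial) fun b G => (e0 _).1 (h3 G) b
  exact ⟨w, h4, fun F => (e0 _).2 fun b => h5 b F⟩

lemma stepE {e : ℕ} (he : 7 ≤ e) (c : Finset (Fin 6) → T) (h1 : IsCh 3 (e + 1 + 3) c)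
    (h2 : ∀ F, c F ∈ LL) (h3 : ∀ G, kd c G ∈ I0) :
    ∃ w, IsCh 4 (e + 4) w ∧ ∀ F, kd w F - c F ∈ I0 := by
  classical
  obtain ⟨w, h4, h5, h6⟩ := conical LL (fun b => Om (-b)) evE 15 3 e
    (fun b f h => by simp [evE, h])
    (fun b l f hf h => by
      rw [evE, evE, if_pos h, neg_sub', sub_neg_eq_add, LinearMap.comp_apply,
        LinearMap.mulLeft_apply, ← mul_assoc, mul_comm _ (X l), X, monomial_mul, one_mul,
        ← tn_add h]
      split_ifs with h1
      · rfl
      · by_contra h2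
        obtain ⟨m, hm, h3, -⟩ := Phi_ne h2
        have := mem_LL.1 hf m hm
        refine h1 ((Om_cone ?_ _ (h.1 l) (add_nonneg (h.1 l) zero_le_one)).1 h)
        rw [tn_add h] at h3
        fin_cases l <;> simp at h3 ⊢ <;> omega)
    (fun b f hf h => by
      have h1 : Om (-b) := by_contra fun h1 => h (by simp [evE, h1])
      rw [evE, if_pos h1] at h
      obtain ⟨m, hm, -, h2⟩ := Phi_ne h
      have := deg_tn h1
      have := hdeg hf hm
      simp only [Pi.neg_apply, sum_neg_distrib] at *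
      omega)
    ((Om_fin (15 - e)).neg.subset fun b h => ⟨h.1, by
      have := h.2
      simp only [Pi.neg_apply, sum_neg_distrib]
      omega⟩)
    (fun b h h' => by
      have h1 := deg_tn h
      simp only [Pi.neg_apply, sum_neg_distrib] at h1
      obtain ⟨u, h2, h3, h4⟩ := dual (e - 7) (tn (-b)) (by rw [tn_apply, h.2.1]; rfl)
        (by rw [tn_apply, h.2.2]; rfl) (by omega)
      refine ⟨u, h2, by rwa [Nat.add_sub_cancel' he] at h3, fun b' => ?_⟩
      by_cases h5 : Om (-b')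
      · rw [evE, if_pos h5, LinearMap.comp_apply, LinearMap.mulLeft_apply,
          h4 _ (by rw [tn_apply, h5.2.1]; rfl) (by rw [tn_apply, h5.2.2]; rfl)]
        simp [tn_inj h h5]
      · rw [evE, if_neg h5, if_neg fun h2 : b = b' => h5 (h2 ▸ h)]
        rfl)
    (fun a F h1 h _ => by
      obtain ⟨j, h2, h3⟩ : ∃ j : Fin 6, j.1 < 4 ∧ j ∉ F := by
        clear h
        revert F
        decide
      have h4 := h.1 j
      refine ⟨j, fun G hG => ?_⟩
      rw [ez_insert hG, neg_sub, neg_sub, add_sub_right_comm]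
      simp only [Pi.neg_apply, Pi.sub_apply, ez, if_neg h3] at h4
      exact Om_cone h2 _ (by simp [ez, hG]; omega) (by simp [ez, hG]; omega))
    c h1 h2 fun b G => by
      rw [evE]
      split_ifs
      · exact (h3 G).2 _
      · rfl
  refine ⟨w, h4, fun F => mem_I0.2 ⟨sub_mem (LL.sum_mem fun j _ => LL.mul_mem_left _ (h5 _))
    (h2 F), fun a h7 h8 => ?_⟩⟩
  have := h6 (-fun j => (a j : ℤ)) F
  rwa [evE, neg_neg, if_pos ⟨fun _ => by positivity, by simp [h7], by simp [h8]⟩,
    show tn (fun j => a j) = a from Finsupp.ext fun _ => by simp [tn_apply]] at this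

end Pool.Agent.WConv
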